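import Pool.Agent.H99.CE.Targets

/-!
# The exact constant of the copolymer slope, upper half: the conditions of the steps
-/

set_option autoImplicit false

open MeasureTheory ProbabilityTheory Filter Topology
open scoped ENNReal
open Pool.Agent.H95 Pool.Agent.H95.Cop Pool.Agent.H96.Cop Pool.Agent.H99.CE

namespace Pool.Agent.H85.CE

lemma ev_pow (n : ℕ) (hn : 1 ≤ n) (a c : ℝ) (ha : 0 < a) (hc : 0 < c) :
    ∀ᶠ x in 𝓝[>] (0 : ℝ), Lg x ^ n * x ^ a ≤ c := by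
  have hn' : (0 : ℝ) < n := by exact_mod_cast hn
  have h1 : Tendsto (fun x : ℝ => Real.log x * x ^ (a / n)) (𝓝[>] (0 : ℝ)) (𝓝 0) :=
    tendsto_log_mul_rpow_nhdsGT_zero (by positivity)
  have h2 : Tendsto (fun x : ℝ => (-(Real.log x * x ^ (a / n))) ^ n) (𝓝[>] (0 : ℝ)) (𝓝 0) := by
    have := (h1.neg).pow n
    rwa [neg_zero, zero_pow (by omega)] at this
  have h3 := h2.eventually (gt_mem_nhds hc)
  filter_upwards [h3, self_mem_nhdsWithin] with x hx hx0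
  have hx1 : 0 < x := hx0
  have h4 : Lg x ^ n * x ^ a = (-(Real.log x * x ^ (a / n))) ^ n := by
    have h5 : -(Real.log x * x ^ (a / n)) = Lg x * x ^ (a / n) := by
      unfold Lg
      rw [one_div, Real.log_inv]
      ring
    rw [h5, mul_pow]
    congr 1
    rw [← Real.rpow_natCast, ← Real.rpow_mul hx1.le]
    congr 1
    field_simp
  rw [h4]
  exact hx.le

lemma ev_Lg (c : ℝ) : ∀ᶠ x in 𝓝[>] (0 : ℝ), c ≤ Lg x := by
  have h1 : Tendsto (fun x : ℝ => -Real.log x) (𝓝[>] (0 : ℝ)) atTop :=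
    tendsto_neg_atBot_atTop.comp Real.tendsto_log_nhdsGT_zero
  filter_upwards [h1.eventually (eventually_ge_atTop c)] with x hx
  unfold Lg
  rw [one_div, Real.log_inv]
  exact hx

/-- powers close to the first -/
lemma pow_th (u β t : ℝ) (m : ℕ) (hu : 1 ≤ u) (hβ : 0 < β) (ht : 11 / 12 ≤ t)
    (h1 : u * (β ^ 12) ^ m ≤ 1) : (u * (β ^ 12) ^ m) ^ t ≤ u * β ^ (11 * m) := by
  have hu0 : 0 < u := by linarith
  have hp : 0 < u * (β ^ 12) ^ m := by positivity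
  calc (u * (β ^ 12) ^ m) ^ t ≤ (u * (β ^ 12) ^ m) ^ (11 / 12 : ℝ) :=
        Real.rpow_le_rpow_of_exponent_ge hp h1 ht
    _ = u ^ (11 / 12 : ℝ) * ((β ^ 12) ^ m) ^ (11 / 12 : ℝ) := by
        rw [Real.mul_rpow hu0.le (by positivity)]
    _ ≤ u * β ^ (11 * m) := by
        have e1 : u ^ (11 / 12 : ℝ) ≤ u := by
          calc u ^ (11 / 12 : ℝ) ≤ u ^ (1 : ℝ) :=
                Real.rpow_le_rpow_of_exponent_le hu (by norm_num)
            _ = u := Real.rpow_one u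
        have e2 : ((β ^ 12) ^ m) ^ (11 / 12 : ℝ) = β ^ (11 * m) := by
          rw [← pow_mul, ← Real.rpow_natCast β (12 * m), ← Real.rpow_mul hβ.le,
            ← Real.rpow_natCast β (11 * m)]
          congr 1
          push_cast
          ring
        rw [e2]
        exact mul_le_mul_of_nonneg_right e1 (by positivity)

lemma exp_add_one_le (y : ℝ) (hy : 0 ≤ y) : Real.exp y + 1 ≤ Real.exp (y + 1) := by
  rw [Real.exp_add]
  have e1 : (2 : ℝ) ≤ Real.exp 1 := by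
    have := Real.add_one_le_exp (1 : ℝ)
    linarith
  have e2 : 1 ≤ Real.exp y := Real.one_le_exp hy
  nlinarith

lemma core (α σ δ C β L A : ℝ) (hLdef : Lg α = L) (hβ0 : 0 < β) (hβ1 : β ≤ 1)
    (hβ : β ^ 12 = α) (hε : α ^ (1 / 4 : ℝ) = β ^ 3) (hα1 : α ≤ 1 / 12) (hσ0 : 0 < σ)
    (hσ1 : σ ≤ 1) (hδ0 : 0 < δ) (hδ1 : δ ≤ 1) (hC : 1 ≤ C) (hL : 16 * C ≤ L)
    (hA : A = 2 * (4 + 1 / σ))
    (K1 : 72 * C * (L ^ 2 * β ^ 12) ≤ δ) (K3 : 72 * C * (1 + 1 / σ) * (L ^ 5 * β ^ 8) ≤ 1)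
    (K5 : 108 * C ^ 2 * (1 + 1 / σ) * (L ^ 4 * β ^ 6) ≤ 1)
    (K6 : 2 * (A + 15) * (L ^ 4 * β ^ 12) ≤ 1) :
    Par α σ δ (hf α) (C * Lg α ^ 2) (α ^ (1 / 4 : ℝ)) (Mf α) (Xf α σ) := by
  have hα : 0 < α := by rw [← hβ]; positivity
  have hL16 : 16 ≤ L := by linarith
  have hL1 : 1 ≤ L := by linarith
  have hL0 : 0 < L := by linarith
  have hC0 : 0 < C := by linarith
  set S : ℝ := 1 + 1 / σ with hS
  have hσi : 1 ≤ 1 / σ := by rw [le_div_iff₀ hσ0]; linarith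
  have hS1 : 1 ≤ S := by rw [hS]; linarith
  have hA1 : 10 ≤ A := by rw [hA]; linarith
  -- powers of L and beta
  have bp : ∀ i j : ℕ, j ≤ i → β ^ i ≤ β ^ j := fun i j h => pow_le_pow_of_le_one hβ0.le hβ1 h
  have lp : ∀ i j : ℕ, i ≤ j → L ^ i ≤ L ^ j := fun i j h => pow_le_pow_right₀ hL1 h
  have lbp : ∀ i j k l : ℕ, i ≤ k → l ≤ j → L ^ i * β ^ j ≤ L ^ k * β ^ l := fun i j k l h1 h2 =>
    mul_le_mul (lp i k h1) (bp j l h2) (by positivity) (by positivity)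
  have hCC : 1 ≤ C ^ 2 := one_le_pow₀ hC
  -- consequences of K3
  have q3 : 72 * C * (L ^ 5 * β ^ 8) ≤ 1 := by
    refine le_trans ?_ K3
    have : 72 * C * (L ^ 5 * β ^ 8) * 1 ≤ 72 * C * (L ^ 5 * β ^ 8) * S :=
      mul_le_mul_of_nonneg_left hS1 (by positivity)
    linarith
  have q3' : 72 * (L ^ 5 * β ^ 8) ≤ 1 := by
    refine le_trans ?_ q3
    have : 72 * (L ^ 5 * β ^ 8) * 1 ≤ 72 * (L ^ 5 * β ^ 8) * C :=
      mul_le_mul_of_nonneg_left hC (by positivity)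
    linarith
  have q28 : 72 * C * (L ^ 2 * β ^ 8) ≤ 1 := by
    refine le_trans ?_ q3
    exact mul_le_mul_of_nonneg_left (lbp 2 8 5 8 (by norm_num) le_rfl) (by positivity)
  have q5 : 108 * C ^ 2 * (L ^ 4 * β ^ 6) ≤ 1 := by
    refine le_trans ?_ K5
    have : 108 * C ^ 2 * (L ^ 4 * β ^ 6) * 1 ≤ 108 * C ^ 2 * (L ^ 4 * β ^ 6) * S :=
      mul_le_mul_of_nonneg_left hS1 (by positivity)
    linarith
  have q6 : 50 * (L ^ 4 * β ^ 12) ≤ 1 := by
    refine le_trans ?_ K6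
    exact mul_le_mul_of_nonneg_right (by linarith) (by positivity)
  have hP0 : 0 < C * L ^ 2 := by positivity
  have hthl : 11 / 12 ≤ th α σ := by
    unfold th
    have h1 : 11 / 12 ≤ 1 / (1 + α) := by
      rw [le_div_iff₀ (by linarith)]
      linarith
    have : 0 ≤ σ * α ^ 2 := by positivity
    linarith
  have hthu : th α σ ≤ 1 - α / 2 := by
    unfold th
    have h1 : 1 / (1 + α) ≤ 1 - α + α ^ 2 := by
      rw [div_le_iff₀ (by linarith)]
      have h0 : (1 - α + α ^ 2) * (1 + α) = 1 + α ^ 3 := by ring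
      rw [h0]
      have := pow_pos hα 3
      linarith
    have h2 : σ * α ^ 2 ≤ 1 * α ^ 2 := mul_le_mul_of_nonneg_right hσ1 (by positivity)
    have h3 : α ^ 2 ≤ 1 / 12 * α := by
      rw [pow_two]
      exact mul_le_mul_of_nonneg_right hα1 hα.le
    linarith
  have hsl : σ * α ^ 2 ≤ sg α σ := by
    unfold sg
    have : 0 ≤ α * (σ * α ^ 2) := by positivity
    linarith
  have hsu : sg α σ ≤ 2 * α ^ 2 := by
    unfold sg
    have h2 : σ * α ^ 2 ≤ 1 * α ^ 2 := mul_le_mul_of_nonneg_right hσ1 (by positivity)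
    have h3 : (1 + α) * (σ * α ^ 2) ≤ 2 * (1 * α ^ 2) :=
      mul_le_mul (by linarith) h2 (by positivity) (by norm_num)
    linarith
  have hs0 : 0 < sg α σ := lt_of_lt_of_le (by positivity) hsl
  have hsi : 1 / sg α σ ≤ (1 / σ) / α ^ 2 := by
    rw [div_div]
    exact one_div_le_one_div_of_le (by positivity) hsl
  have hα2 : 0 < α ^ 2 := by positivity
  have hα2' : α ^ 2 ≤ 1 := pow_le_one₀ hα.le (by linarith)
  have hCL : 1 ≤ C * L ^ 2 := one_le_mul_of_one_le_of_one_le hC (one_le_pow₀ hL1)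
  have hCL2 : 1 ≤ C ^ 2 * L ^ 4 := one_le_mul_of_one_le_of_one_le hCC (one_le_pow₀ hL1)
  have hone : 1 ≤ 1 / α ^ 2 := by rw [le_div_iff₀ hα2]; linarith
  have hSs : 1 + 1 / sg α σ ≤ S / α ^ 2 := by
    rw [hS, add_div]
    linarith
  have hAs : 4 + 1 / sg α σ ≤ (4 + 1 / σ) / α ^ 2 := by
    rw [add_div]
    have : 4 ≤ 4 / α ^ 2 := by rw [le_div_iff₀ hα2]; linarith
    linarith
  -- h
  have hh : hf α = (L ^ 3)⁻¹ := by unfold hf; rw [hLdef]
  have hh0 : 0 < hf α := by rw [hh]; positivity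
  have hhL : hf α * L ^ 3 = 1 := by rw [hh]; exact inv_mul_cancel₀ (by positivity)
  -- M
  have hMl : Real.exp (hf α / α ^ 2) ≤ (Mf α : ℝ) := Nat.le_ceil _
  have hMu : (Mf α : ℝ) ≤ Real.exp (hf α / α ^ 2) + 1 :=
    (Nat.ceil_lt_add_one (Real.exp_pos _).le).le
  have hE1 : ∀ y : ℝ, 0 ≤ y → Real.exp y + 1 ≤ Real.exp (y + 1) := exp_add_one_le
  have hMpos : (0 : ℝ) < Mf α := lt_of_lt_of_le (Real.exp_pos _) hMl
  have hlogM1 : hf α / α ^ 2 ≤ Real.log (Mf α) := by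
    rw [Real.le_log_iff_exp_le hMpos]
    exact hMl
  have hlogM2 : Real.log (Mf α) ≤ hf α / α ^ 2 + 1 := by
    rw [Real.log_le_iff_le_exp hMpos]
    exact hMu.trans (hE1 _ (by positivity))
  have hexpL : Real.exp L = 1 / α := by
    rw [← hLdef]
    unfold Lg
    exact Real.exp_log (by positivity)
  -- M is large
  have hMα : 1 / α ≤ (Mf α : ℝ) := by
    rw [← hexpL]
    refine le_trans (Real.exp_le_exp.2 ?_) hMl
    rw [le_div_iff₀ hα2]
    have e1 : L ^ 4 * α ^ 2 ≤ 1 := by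
      have : L ^ 4 * α ^ 2 = L ^ 4 * β ^ 24 := by rw [← hβ]; ring
      rw [this]
      have := lbp 4 24 4 12 le_rfl (by norm_num)
      linarith
    have e2 : L * α ^ 2 = hf α * (L ^ 4 * α ^ 2) := by
      have : hf α * (L ^ 4 * α ^ 2) = (hf α * L ^ 3) * (L * α ^ 2) := by ring
      rw [this, hhL, one_mul]
    rw [e2]
    have := mul_le_mul_of_nonneg_left e1 hh0.le
    linarith
  have hPe : C * Lg α ^ 2 = C * L ^ 2 := by rw [hLdef]
  rw [hPe]
  have y1 : (36 * α * (C * L ^ 2)) ^ th α σ ≤ 36 * C * L ^ 2 * β ^ 11 := by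
    have e1 : 36 * α * (C * L ^ 2) = 36 * C * L ^ 2 * (β ^ 12) ^ 1 := by rw [← hβ]; ring
    rw [e1]
    have := pow_th (36 * C * L ^ 2) β (th α σ) 1 (by linarith) hβ0
      hthl (by
        have := lbp 2 12 2 8 le_rfl (by norm_num)
        have h2 : 36 * C * (L ^ 2 * β ^ 12) ≤ 36 * C * (L ^ 2 * β ^ 8) :=
          mul_le_mul_of_nonneg_left this (by positivity)
        rw [pow_one]
        linarith)
    simpa using this
  have y2 : (2 * α * (C * L ^ 2)) ^ th α σ ≤ 2 * C * L ^ 2 * β ^ 11 := by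
    have e1 : 2 * α * (C * L ^ 2) = 2 * C * L ^ 2 * (β ^ 12) ^ 1 := by rw [← hβ]; ring
    rw [e1]
    have := pow_th (2 * C * L ^ 2) β (th α σ) 1 (by linarith) hβ0
      hthl (by
        have := lbp 2 12 2 8 le_rfl (by norm_num)
        have h2 : 2 * C * (L ^ 2 * β ^ 12) ≤ 2 * C * (L ^ 2 * β ^ 8) :=
          mul_le_mul_of_nonneg_left this (by positivity)
        rw [pow_one]
        linarith)
    simpa using this
  have y3 : (36 * α ^ 3 * (C * L ^ 2) ^ 2) ^ th α σ ≤ 36 * C ^ 2 * L ^ 4 * β ^ 33 := by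
    have e1 : 36 * α ^ 3 * (C * L ^ 2) ^ 2 = 36 * C ^ 2 * L ^ 4 * (β ^ 12) ^ 3 := by
      rw [← hβ]; ring
    rw [e1]
    have := pow_th (36 * C ^ 2 * L ^ 4) β (th α σ) 3
      (by linarith) hβ0 hthl (by
        have h0 : (β ^ 12) ^ 3 = β ^ 36 := by ring
        have := lbp 4 36 4 6 le_rfl (by norm_num)
        have h2 : 36 * C ^ 2 * (L ^ 4 * β ^ 36) ≤ 36 * C ^ 2 * (L ^ 4 * β ^ 6) :=
          mul_le_mul_of_nonneg_left this (by positivity)
        rw [h0]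
        linarith)
    simpa using this
  have hY1 : 0 ≤ (36 * α * (C * L ^ 2)) ^ th α σ := by positivity
  have hY3 : 0 ≤ (36 * α ^ 3 * (C * L ^ 2) ^ 2) ^ th α σ := by positivity
  rw [hε]
  have hb3 : 0 < β ^ 3 := by positivity
  have hb31 : β ^ 3 ≤ 1 := pow_le_one₀ hβ0.le hβ1
  refine ⟨hα, by linarith, hσ0, hδ0, hδ1, hh0, ?_, hb3, hb31, ?_, by linarith, hthu, hlogM1,
    ?_, ?_, ?_, ?_, ?_, ?_, ?_⟩
  · exact hCL
  · have : 0 < Mf α := by exact_mod_cast hMpos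
    exact this
  · -- cδ
    have e1 : 72 * α * (C * L ^ 2) = 72 * C * (L ^ 2 * β ^ 12) := by rw [← hβ]; ring
    rw [e1]
    exact K1
  · -- c1
    have e1 : α ^ 2 * ((36 * α * (C * L ^ 2)) ^ th α σ * (1 + 1 / sg α σ)) ≤
        36 * C * L ^ 2 * β ^ 11 * S := by
      calc α ^ 2 * ((36 * α * (C * L ^ 2)) ^ th α σ * (1 + 1 / sg α σ))
          ≤ α ^ 2 * ((36 * C * L ^ 2 * β ^ 11) * (S / α ^ 2)) := by
            apply mul_le_mul_of_nonneg_left _ hα2.le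
            exact mul_le_mul y1 hSs (by positivity) (by positivity)
        _ = 36 * C * L ^ 2 * β ^ 11 * S := by
            field_simp
    have e2 : α ^ 2 * Real.log (Mf α) ≤ hf α + α ^ 2 := by
      calc α ^ 2 * Real.log (Mf α) ≤ α ^ 2 * (hf α / α ^ 2 + 1) :=
            mul_le_mul_of_nonneg_left hlogM2 hα2.le
        _ = hf α + α ^ 2 := by field_simp
    have e3 : 3 * α ^ 2 + 36 * C * L ^ 2 * β ^ 11 * S ≤ β ^ 3 * hf α := by
      have e4 : 3 * α ^ 2 + 36 * C * L ^ 2 * β ^ 11 * S =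
          β ^ 3 * hf α * (3 * (L ^ 3 * β ^ 21) + 36 * C * S * (L ^ 5 * β ^ 8)) := by
        have e5 : β ^ 3 * hf α * (3 * (L ^ 3 * β ^ 21) + 36 * C * S * (L ^ 5 * β ^ 8)) =
            (hf α * L ^ 3) * (3 * β ^ 24 + 36 * C * L ^ 2 * β ^ 11 * S) := by ring
        rw [e5, hhL, one_mul, ← hβ]
        ring
      rw [e4]
      have e6 : 3 * (L ^ 3 * β ^ 21) + 36 * C * S * (L ^ 5 * β ^ 8) ≤ 1 := by
        have := lbp 3 21 5 8 (by norm_num) (by norm_num)
        linarith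
      have : β ^ 3 * hf α * (3 * (L ^ 3 * β ^ 21) + 36 * C * S * (L ^ 5 * β ^ 8)) ≤
          β ^ 3 * hf α * 1 := mul_le_mul_of_nonneg_left e6 (by positivity)
      linarith
    have e7 : α ^ 2 * (2 + Real.log (Mf α) +
        (36 * α * (C * L ^ 2)) ^ th α σ * (1 + 1 / sg α σ)) = 2 * α ^ 2 +
        α ^ 2 * Real.log (Mf α) +
        α ^ 2 * ((36 * α * (C * L ^ 2)) ^ th α σ * (1 + 1 / sg α σ)) := by ring
    rw [e7, add_mul, one_mul]
    linarith
  · -- c2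
    have e1 : hf α * (2 * (C * L ^ 2)) * L = 2 * C := by
      have : hf α * (2 * (C * L ^ 2)) * L = (hf α * L ^ 3) * (2 * C) := by ring
      rw [this, hhL, one_mul]
    have e2 : hf α * (2 * (C * L ^ 2)) ≤ 1 / 8 := by
      by_contra hcon
      push Not at hcon
      have : 1 / 8 * L < hf α * (2 * (C * L ^ 2)) * L := mul_lt_mul_of_pos_right hcon hL0
      linarith
    have e3 : 0 ≤ hf α * (2 * (C * L ^ 2)) := by positivity
    have e4 : β ^ 3 * (hf α * (2 * (C * L ^ 2))) ≤ 1 * (hf α * (2 * (C * L ^ 2))) :=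
      mul_le_mul_of_nonneg_right hb31 e3
    have e5 : (1 + β ^ 3) * hf α * (2 * (C * L ^ 2)) = hf α * (2 * (C * L ^ 2)) +
        β ^ 3 * (hf α * (2 * (C * L ^ 2))) := by ring
    rw [e5]
    linarith
  · -- c3
    have e1 : (36 * α ^ 3 * (C * L ^ 2) ^ 2) ^ th α σ * (1 + 1 / sg α σ) ≤
        36 * C ^ 2 * L ^ 4 * β ^ 9 * S := by
      calc (36 * α ^ 3 * (C * L ^ 2) ^ 2) ^ th α σ * (1 + 1 / sg α σ)
          ≤ (36 * C ^ 2 * L ^ 4 * β ^ 33) * (S / α ^ 2) :=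
            mul_le_mul y3 hSs (by positivity) (by positivity)
        _ = 36 * C ^ 2 * L ^ 4 * β ^ 9 * S := by
            rw [← hβ]
            field_simp
    have e2 : 2 * α * (C * L ^ 2) = 2 * C * (L ^ 2 * β ^ 12) := by rw [← hβ]; ring
    have e3 : 2 * C * (L ^ 2 * β ^ 12) + 2 * C * L ^ 2 * β ^ 11 +
        36 * C ^ 2 * L ^ 4 * β ^ 9 * S = β ^ 3 * (2 * C * (L ^ 2 * β ^ 9) +
          2 * C * (L ^ 2 * β ^ 8) + 36 * C ^ 2 * S * (L ^ 4 * β ^ 6)) := by ring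
    have e4 : 2 * C * (L ^ 2 * β ^ 9) + 2 * C * (L ^ 2 * β ^ 8) +
        36 * C ^ 2 * S * (L ^ 4 * β ^ 6) ≤ 1 := by
      have h1 : 2 * C * (L ^ 2 * β ^ 9) ≤ 2 * C * (L ^ 2 * β ^ 8) :=
        mul_le_mul_of_nonneg_left (lbp 2 9 2 8 le_rfl (by norm_num)) (by positivity)
      linarith
    have e5 : β ^ 3 * (2 * C * (L ^ 2 * β ^ 9) + 2 * C * (L ^ 2 * β ^ 8) +
        36 * C ^ 2 * S * (L ^ 4 * β ^ 6)) ≤ β ^ 3 * 1 := mul_le_mul_of_nonneg_left e4 hb3.le
    calc 2 * α * (C * L ^ 2) + (2 * α * (C * L ^ 2)) ^ th α σ +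
          (36 * α ^ 3 * (C * L ^ 2) ^ 2) ^ th α σ * (1 + 1 / sg α σ)
        ≤ 2 * C * (L ^ 2 * β ^ 12) + 2 * C * L ^ 2 * β ^ 11 +
            36 * C ^ 2 * L ^ 4 * β ^ 9 * S := add_le_add (add_le_add e2.le y2) e1
      _ ≤ β ^ 3 := by rw [e3]; linarith
  · -- c4
    have z1 : (α ^ 2 * (C * L ^ 2)) ^ th α σ ≤ 1 := by
      apply Real.rpow_le_one (by positivity) _ (by linarith)
      have e1 : α ^ 2 * (C * L ^ 2) = C * (L ^ 2 * β ^ 24) := by rw [← hβ]; ring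
      rw [e1]
      have h1 : C * (L ^ 2 * β ^ 24) ≤ C * (L ^ 2 * β ^ 8) :=
        mul_le_mul_of_nonneg_left (lbp 2 24 2 8 le_rfl (by norm_num)) (by positivity)
      linarith
    have z2 : (Mf α : ℝ) ^ (th α σ - 1) ≤ Real.exp (-(hf α / (2 * α))) := by
      rw [Real.rpow_def_of_pos hMpos]
      apply Real.exp_le_exp.2
      have h1 : Real.log (Mf α) * (th α σ - 1) ≤ hf α / α ^ 2 * (th α σ - 1) :=
        mul_le_mul_of_nonpos_right hlogM1 (by linarith)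
      have h2 : hf α / α ^ 2 * (th α σ - 1) ≤ hf α / α ^ 2 * (-(α / 2)) :=
        mul_le_mul_of_nonneg_left (by linarith) (by positivity)
      have h3 : hf α / α ^ 2 * (-(α / 2)) = -(hf α / (2 * α)) := by
        field_simp
      linarith
    have z3 : Xf α σ ≤ Real.exp (10 * L) := by
      have hn0pos : (0 : ℝ) < n0f α := by
        refine lt_of_lt_of_le (Real.exp_pos (Lg α ^ 2 / α)) ?_
        exact Nat.le_ceil _
      have hlogn : Real.log (n0f α) ≤ L ^ 2 / α + 1 := by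
        rw [Real.log_le_iff_le_exp hn0pos]
        have h1 : (n0f α : ℝ) ≤ Real.exp (Lg α ^ 2 / α) + 1 :=
          (Nat.ceil_lt_add_one (Real.exp_pos _).le).le
        rw [hLdef] at h1
        exact h1.trans (hE1 _ (by positivity))
      have hJ : (Jf α : ℝ) ≤ L ^ 4 + 1 := by
        have h1 : (Jf α : ℝ) ≤ Lg α ^ 4 + 1 := (Nat.ceil_lt_add_one (by positivity)).le
        rwa [hLdef] at h1
      have hprod : (0 : ℝ) < ((Mf α ^ Jf α * n0f α : ℕ) : ℝ) := by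
        push_cast
        positivity
      unfold Xf
      rw [Real.rpow_def_of_pos hprod]
      apply Real.exp_le_exp.2
      have hlog : Real.log ((Mf α ^ Jf α * n0f α : ℕ) : ℝ) =
          Jf α * Real.log (Mf α) + Real.log (n0f α) := by
        push_cast
        rw [Real.log_mul (by positivity) hn0pos.ne', Real.log_pow]
      have h2 : Real.log ((Mf α ^ Jf α * n0f α : ℕ) : ℝ) ≤
          (L ^ 4 + 1) * (hf α / α ^ 2 + 1) + (L ^ 2 / α + 1) := by
        rw [hlog]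
        apply add_le_add _ hlogn
        exact mul_le_mul hJ hlogM2 (le_trans (by positivity) hlogM1) (by positivity)
      have h3 : Real.log ((Mf α ^ Jf α * n0f α : ℕ) : ℝ) * sg α σ ≤
          ((L ^ 4 + 1) * (hf α / α ^ 2 + 1) + (L ^ 2 / α + 1)) * (2 * α ^ 2) :=
        mul_le_mul h2 hsu hs0.le (by positivity)
      have h4 : ((L ^ 4 + 1) * (hf α / α ^ 2 + 1) + (L ^ 2 / α + 1)) * (2 * α ^ 2) =
          2 * ((L ^ 4 + 1) * hf α + (L ^ 4 + 1) * α ^ 2 + L ^ 2 * α + α ^ 2) := by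
        field_simp
        ring
      have h5 : (L ^ 4 + 1) * hf α ≤ 2 * L := by
        have e1 : (L ^ 4 + 1) * hf α = L * (hf α * L ^ 3) + hf α := by ring
        rw [e1, hhL]
        have e2 : hf α ≤ 1 := by
          rw [hh]
          exact inv_le_one_of_one_le₀ (one_le_pow₀ hL1)
        linarith
      have h6 : (L ^ 4 + 1) * α ^ 2 ≤ 1 := by
        have e1 : (L ^ 4 + 1) * α ^ 2 = L ^ 4 * β ^ 24 + L ^ 0 * β ^ 24 := by
          rw [← hβ]; ring
        rw [e1]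
        have e2 := lbp 4 24 4 12 le_rfl (by norm_num)
        have e3 := lbp 0 24 4 12 (by norm_num) (by norm_num)
        linarith
      have h7 : L ^ 2 * α ≤ 1 := by
        rw [← hβ]
        have e2 := lbp 2 12 4 12 (by norm_num) le_rfl
        linarith
      linarith
    have z4 : 0 ≤ Xf α σ := by unfold Xf; positivity
    have z5 : A * Real.exp (4 * L) * Real.exp (-(hf α / (2 * α))) * Real.exp (10 * L) ≤ β ^ 3 := by
      have e1 : A ≤ Real.exp (A * L) := by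
        have h1 := Real.add_one_le_exp A
        have h2 : Real.exp A ≤ Real.exp (A * L) := Real.exp_le_exp.2
          (le_mul_of_one_le_right (by linarith) hL1)
        linarith
      have e2 : (A + 15) * L ≤ hf α / (2 * α) := by
        rw [le_div_iff₀ (by positivity)]
        have e3 : (A + 15) * L * (2 * α) = hf α * (2 * (A + 15) * (L ^ 4 * β ^ 12)) := by
          have : hf α * (2 * (A + 15) * (L ^ 4 * β ^ 12)) =
              (hf α * L ^ 3) * (2 * (A + 15) * L * β ^ 12) := by ring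
          rw [this, hhL, one_mul, hβ]
          ring
        rw [e3]
        have := mul_le_mul_of_nonneg_left K6 hh0.le
        linarith
      calc A * Real.exp (4 * L) * Real.exp (-(hf α / (2 * α))) * Real.exp (10 * L)
          ≤ Real.exp (A * L) * Real.exp (4 * L) * Real.exp (-(hf α / (2 * α))) *
              Real.exp (10 * L) := by
            gcongr
        _ = Real.exp (A * L + 4 * L + (-(hf α / (2 * α))) + 10 * L) := by
            rw [Real.exp_add, Real.exp_add, Real.exp_add]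
        _ ≤ Real.exp (-L) := Real.exp_le_exp.2 (by linarith)
        _ = β ^ 12 := by rw [Real.exp_neg, hexpL, hβ, one_div, inv_inv]
        _ ≤ β ^ 3 := bp 12 3 (by norm_num)
    have z6 : 1 / α ^ 4 = Real.exp (4 * L) := by
      rw [show (4 : ℝ) * L = ((4 : ℕ) : ℝ) * L by norm_num, Real.exp_nat_mul, hexpL, div_pow,
        one_pow]
    have z7 : 0 ≤ (Mf α : ℝ) ^ (th α σ - 1) := by positivity
    have z8 : 0 ≤ (α ^ 2 * (C * L ^ 2)) ^ th α σ := by positivity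
    calc 2 * (α ^ 2 * (C * L ^ 2)) ^ th α σ * (4 + 1 / sg α σ) *
          (Mf α : ℝ) ^ (th α σ - 1) * Xf α σ / α ^ 2
        ≤ 2 * 1 * ((4 + 1 / σ) / α ^ 2) * Real.exp (-(hf α / (2 * α))) *
            Real.exp (10 * L) / α ^ 2 := by
          gcongr
      _ = A * (1 / α ^ 4) * Real.exp (-(hf α / (2 * α))) * Real.exp (10 * L) := by
          rw [hA]
          field_simp
      _ ≤ β ^ 3 := by rw [z6]; exact z5
  · -- c5
    have e1 : 2 * (C * L ^ 2) / (Mf α : ℝ) ≤ 2 * C * (L ^ 2 * β ^ 12) := by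
      rw [div_le_iff₀ hMpos]
      have h1 : 1 ≤ β ^ 12 * (Mf α : ℝ) := by
        rw [hβ]
        rw [div_le_iff₀ hα] at hMα
        linarith
      have h2 : 2 * (C * L ^ 2) * 1 ≤ 2 * (C * L ^ 2) * (β ^ 12 * (Mf α : ℝ)) :=
        mul_le_mul_of_nonneg_left h1 (by positivity)
      linarith
    have e2 : 4 * α ^ 2 * (C * L ^ 2) ^ 2 = 4 * C ^ 2 * (L ^ 4 * β ^ 24) := by rw [← hβ]; ring
    have e3 : 2 * C * (L ^ 2 * β ^ 12) + 4 * C ^ 2 * (L ^ 4 * β ^ 24) =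
        β ^ 3 * (2 * C * (L ^ 2 * β ^ 9) + 4 * C ^ 2 * (L ^ 4 * β ^ 21)) := by ring
    have e4 : 2 * C * (L ^ 2 * β ^ 9) + 4 * C ^ 2 * (L ^ 4 * β ^ 21) ≤ 1 := by
      have h1 : 2 * C * (L ^ 2 * β ^ 9) ≤ 2 * C * (L ^ 2 * β ^ 8) :=
        mul_le_mul_of_nonneg_left (lbp 2 9 2 8 le_rfl (by norm_num)) (by positivity)
      have h2 : 4 * C ^ 2 * (L ^ 4 * β ^ 21) ≤ 4 * C ^ 2 * (L ^ 4 * β ^ 6) :=
        mul_le_mul_of_nonneg_left (lbp 4 21 4 6 le_rfl (by norm_num)) (by positivity)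
      linarith
    have e5 : β ^ 3 * (2 * C * (L ^ 2 * β ^ 9) + 4 * C ^ 2 * (L ^ 4 * β ^ 21)) ≤ β ^ 3 * 1 :=
      mul_le_mul_of_nonneg_left e4 hb3.le
    rw [e2]
    linarith
  · -- c6
    have e1 : 64 * α * (C * L ^ 2) = β ^ 3 * (64 * C * (L ^ 2 * β ^ 9)) := by rw [← hβ]; ring
    have e2 : 64 * C * (L ^ 2 * β ^ 9) ≤ 1 := by
      have h1 : 64 * C * (L ^ 2 * β ^ 9) ≤ 64 * C * (L ^ 2 * β ^ 8) :=
        mul_le_mul_of_nonneg_left (lbp 2 9 2 8 le_rfl (by norm_num)) (by positivity)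
      linarith
    rw [e1]
    have := mul_le_mul_of_nonneg_left e2 hb3.le
    linarith

theorem pf_PRP : T_PRP := by
  intro σ δ C hσ0 hσ1 hδ0 hδ1 hC
  have hC0 : 0 < C := by linarith
  have hS0 : 0 < 1 + 1 / σ := by positivity
  have hA0 : 0 < 2 * (4 + 1 / σ) + 15 := by positivity
  have v1 := ev_pow 2 (by norm_num) 1 (δ / (72 * C)) one_pos (by positivity)
  have v3 := ev_pow 5 (by norm_num) (8 / 12) (1 / (72 * C * (1 + 1 / σ))) (by norm_num)
    (by positivity)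
  have v5 := ev_pow 4 (by norm_num) (6 / 12) (1 / (108 * C ^ 2 * (1 + 1 / σ))) (by norm_num)
    (by positivity)
  have v6 := ev_pow 4 (by norm_num) 1 (1 / (2 * (2 * (4 + 1 / σ) + 15))) one_pos (by positivity)
  have v0 : ∀ᶠ x in 𝓝[>] (0 : ℝ), x ≤ 1 / 12 :=
    eventually_nhdsWithin_of_eventually_nhds (eventually_le_nhds (by norm_num))
  filter_upwards [v1, v3, v5, v6, v0, ev_Lg (16 * C), self_mem_nhdsWithin]
    with α w1 w3 w5 w6 w0 wL hα0
  have hα : 0 < α := hα0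
  have hp : ∀ n : ℕ, (α ^ (1 / 12 : ℝ)) ^ n = α ^ ((n : ℝ) / 12) := by
    intro n
    rw [← Real.rpow_natCast, ← Real.rpow_mul hα.le]
    congr 1
    ring
  have h12 : (α ^ (1 / 12 : ℝ)) ^ 12 = α := by
    rw [hp]
    norm_num
  have h8 : (α ^ (1 / 12 : ℝ)) ^ 8 = α ^ (8 / 12 : ℝ) := by rw [hp]; norm_num
  have h6 : (α ^ (1 / 12 : ℝ)) ^ 6 = α ^ (6 / 12 : ℝ) := by rw [hp]; norm_num
  have h3 : (α ^ (1 / 12 : ℝ)) ^ 3 = α ^ (1 / 4 : ℝ) := by rw [hp]; norm_num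
  rw [Real.rpow_one] at w1 w6
  refine core α σ δ C (α ^ (1 / 12 : ℝ)) (Lg α) (2 * (4 + 1 / σ)) rfl
    (Real.rpow_pos_of_pos hα _) (Real.rpow_le_one hα.le (by linarith) (by norm_num)) h12 h3.symm
    w0 hσ0 hσ1 hδ0 hδ1 hC wL rfl ?_ ?_ ?_ ?_
  · rw [h12]
    rw [le_div_iff₀ (by positivity)] at w1
    linarith
  · rw [h8]
    rw [le_div_iff₀ (by positivity)] at w3
    linarith
  · rw [h6]
    rw [le_div_iff₀ (by positivity)] at w5
    linarith
  · rw [h12]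
    rw [le_div_iff₀ (by positivity)] at w6
    linarith

end Pool.Agent.H85.CE
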