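import Pool.Agent.H99.CE.Targets

/-!
# The exact constant of the copolymer slope, upper half: assembly
-/

set_option autoImplicit false

open MeasureTheory ProbabilityTheory Filter Topology
open scoped ENNReal
open Pool.Agent.H95 Pool.Agent.H95.Cop Pool.Agent.H96.Cop Pool.Agent.H99.CE

namespace Pool.Agent.H85.CE

lemma exists_Reg (K : PMF ℕ) (α cK δ : ℝ) (hcK : 0 < cK) (hδ : 0 < δ)
    (hK : Tendsto (fun n : ℕ => (K n).toReal * (n : ℝ) ^ (1 + α)) atTop (𝓝 cK)) :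
    ∃ n0 : ℕ, 1 ≤ n0 ∧ Reg K α cK δ n0 := by
  have hp : 0 < δ * cK := mul_pos hδ hcK
  have h1 : ∀ᶠ n : ℕ in atTop, (1 - δ) * cK < (K n).toReal * (n : ℝ) ^ (1 + α) :=
    hK.eventually (lt_mem_nhds (by nlinarith))
  have h2 : ∀ᶠ n : ℕ in atTop, (K n).toReal * (n : ℝ) ^ (1 + α) < (1 + δ) * cK :=
    hK.eventually (gt_mem_nhds (by nlinarith))
  obtain ⟨n1, hn1⟩ := eventually_atTop.mp (h1.and h2)
  refine ⟨max n1 1, le_max_right _ _, fun n hn => ?_⟩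
  have hn0 : (0 : ℝ) < n := by
    have : 1 ≤ n := (le_max_right _ _).trans hn
    exact_mod_cast this
  have h3 : 0 < (n : ℝ) ^ (1 + α) := Real.rpow_pos_of_pos hn0 _
  have h4 := hn1 n ((le_max_left _ _).trans hn)
  rw [Real.rpow_neg hn0.le, ← div_eq_mul_inv, ← div_eq_mul_inv, div_le_iff₀ h3, le_div_iff₀ h3]
  exact ⟨h4.1.le, h4.2.le⟩

lemma tendsto_cells (α δ : ℝ) (hα : 0 < α) (hδ : 0 < δ) :
    Tendsto (fun lam : ℝ => ⌈δ / 4 / (α * lam ^ 2)⌉₊) (𝓝[>] (0 : ℝ)) atTop := by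
  have h1 : Tendsto (fun lam : ℝ => δ / 4 / (α * lam ^ 2)) (𝓝[>] (0 : ℝ)) atTop := by
    have h2 : Tendsto (fun lam : ℝ => 4 / δ * (α * lam ^ 2)) (𝓝[>] (0 : ℝ)) (𝓝[>] (0 : ℝ)) := by
      rw [tendsto_nhdsWithin_iff]
      refine ⟨?_, ?_⟩
      · have : Tendsto (fun lam : ℝ => 4 / δ * (α * lam ^ 2)) (𝓝 (0 : ℝ))
            (𝓝 (4 / δ * (α * 0 ^ 2))) :=
          (((continuous_pow 2).const_mul _).const_mul _).tendsto 0
        rw [zero_pow two_ne_zero, mul_zero, mul_zero] at this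
        exact this.mono_left nhdsWithin_le_nhds
      · filter_upwards [self_mem_nhdsWithin] with lam hlam
        have hlam1 : 0 < lam := hlam
        have : 0 < 4 / δ * (α * lam ^ 2) := by positivity
        exact this
    have h3 := tendsto_inv_nhdsGT_zero.comp h2
    refine h3.congr (fun lam => ?_)
    simp only [Function.comp]
    rw [mul_inv, inv_div, ← div_eq_mul_inv]
  exact tendsto_nat_ceil_atTop.comp h1

theorem pf_UPR (hSCL : T_SCL) (hFCR : T_FCR) (hNEG : T_NEG) (hBT0 : T_BT0) (hBG0 : T_BG0)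
    (hPRL : T_PRL) (hPRB : T_PRB) (hPRP : T_PRP) (hPRC : T_PRC) : T_UPR := by
  intro e0 he0
  -- the parameters
  obtain ⟨d, σ, δ, g0, hd, hσ0, hσ1, hσd, hdσ, hδ0, hδ1, hg0, hg1, hg2⟩ :
      ∃ d σ δ g0 : ℝ, d = 2 + e0 ∧ 0 < σ ∧ σ ≤ 1 ∧ 2 * σ ≤ d ∧ 1 ≤ d - σ ∧ 0 < δ ∧
        δ ≤ 1 / 20 ∧ (1 + 100 * δ) / (d - σ) + 2 * δ ≤ g0 ∧ 0 < 1 / 2 - g0 ∧ 0 ≤ g0 := by
    have hσ2 : min (e0 / 4) 1 ≤ e0 / 4 := min_le_left _ _
    have hσ3 : 0 < min (e0 / 4) 1 := lt_min (by linarith) one_pos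
    set σ : ℝ := min (e0 / 4) 1 with hσdef
    have hD : 2 < 2 + e0 - σ := by linarith
    have hD0 : 0 < 2 + e0 - σ := by linarith
    have hD1 : 1 / (2 + e0 - σ) < 1 / 2 := by
      rw [div_lt_div_iff₀ hD0 two_pos]
      linarith
    have hD2 : 0 < 1 / (2 + e0 - σ) := by positivity
    have hA : 0 < 100 / (2 + e0 - σ) + 2 := by positivity
    set A : ℝ := 100 / (2 + e0 - σ) + 2 with hAdef
    have hx : 0 < (1 / 2 - 1 / (2 + e0 - σ)) / (2 * A) := div_pos (by linarith) (by linarith)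
    refine ⟨2 + e0, σ, min (1 / 20) ((1 / 2 - 1 / (2 + e0 - σ)) / (2 * A)),
      (1 + 100 * min (1 / 20) ((1 / 2 - 1 / (2 + e0 - σ)) / (2 * A))) / (2 + e0 - σ) +
        2 * min (1 / 20) ((1 / 2 - 1 / (2 + e0 - σ)) / (2 * A)), rfl, hσ3, min_le_right _ _,
      by linarith, by linarith, lt_min (by norm_num) hx, min_le_left _ _, le_refl _, ?_, ?_⟩
    · have h1 : min (1 / 20) ((1 / 2 - 1 / (2 + e0 - σ)) / (2 * A)) ≤
          (1 / 2 - 1 / (2 + e0 - σ)) / (2 * A) := min_le_right _ _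
      rw [le_div_iff₀ (by linarith)] at h1
      set δ : ℝ := min (1 / 20) ((1 / 2 - 1 / (2 + e0 - σ)) / (2 * A))
      have h2 : (1 + 100 * δ) / (2 + e0 - σ) + 2 * δ = 1 / (2 + e0 - σ) + δ * A := by
        rw [hAdef]
        field_simp
        ring
      rw [h2]
      linarith
    · have : 0 < min (1 / 20) ((1 / 2 - 1 / (2 + e0 - σ)) / (2 * A)) :=
        lt_min (by norm_num) hx
      positivity
  obtain ⟨C, κ, hC, hκ, hscl⟩ := hSCL (1 / 2 - g0) hg1 (by linarith)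
  have E1 := hPRB σ d δ g0 hσ0 hσ1 hdσ hδ0 hδ1 hg0
  have E2 := hPRP σ δ C hσ0 hσ1 hδ0 (by linarith) hC
  have E3 := hPRC σ d δ C κ hσ0 hσ1 (by linarith) hδ0 (by linarith) hC hκ
  have E := (E1.and E2).and E3
  rw [Filter.Eventually, mem_nhdsGT_iff_exists_Ioo_subset] at E
  obtain ⟨α0, hα0, hsub⟩ := E
  refine ⟨α0, hα0, ?_⟩
  intro α hα hαlt K hK0 cK hcK hK μ _ hexp hmean hvar
  obtain ⟨⟨hB, hP⟩, c1, c2, c3, c4, c5, c6, c7, c8, c9⟩ := hsub ⟨hα, hαlt⟩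
  obtain ⟨n1, hn1, hReg⟩ := exists_Reg K α cK δ hcK hδ0 hK
  have hk := tendsto_cells α δ hα hδ0
  have e3 : ∀ᶠ lam in 𝓝[>] (0 : ℝ), n1 ≤ ⌈δ / 4 / (α * lam ^ 2)⌉₊ :=
    hk.eventually (eventually_ge_atTop n1)
  have e4 : ∀ᶠ lam in 𝓝[>] (0 : ℝ),
      (n1 : ℝ) ≤ cK * ((⌈δ / 4 / (α * lam ^ 2)⌉₊ : ℕ) : ℝ) ^ (1 - α) := by
    have h1 : Tendsto (fun n : ℕ => cK * ((n : ℕ) : ℝ) ^ (1 - α)) atTop atTop :=
      ((tendsto_rpow_atTop (by linarith : 0 < 1 - α)).comp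
        tendsto_natCast_atTop_atTop).const_mul_atTop hcK
    exact hk.eventually (h1.eventually (eventually_ge_atTop (n1 : ℝ)))
  have e5 := hPRL μ hexp hmean hvar α σ d δ hα c7 hσ0 hσd hδ0 hδ1 c9 c5 c6
  filter_upwards [e5, e3, e4, self_mem_nhdsWithin] with lam hp g3 g4 hlam
  have h0 : 0 < lam := hlam
  rw [div_le_iff₀ h0]
  unfold criticalCurve
  have hbpos : 0 ≤ 1 / (1 + α) + (2 + e0) * α ^ 2 := by positivity
  apply Real.sSup_le
  · rintro h ⟨hh0, f, hf0, hfe⟩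
    by_contra hcon
    push Not at hcon
    obtain ⟨b, hEnv⟩ := hp h (by rw [hd]; exact hcon.le)
    set k : ℕ := ⌈δ / 4 / (α * lam ^ 2)⌉₊ with hkdef
    have hk1 : 1 ≤ k := hn1.trans g3
    have hkpos : (0 : ℝ) < k := by exact_mod_cast hk1
    have hn0 : 1 ≤ n0f α := le_trans (by norm_num) hB.n2
    have hkB : k ≤ n0f α * k := Nat.le_mul_of_pos_left k hn0
    obtain ⟨q1, q2⟩ := hBT0 K hK0 (chargeLaw μ lam h) α σ d δ cK b (Lg α ^ 2) g0 (n0f α) n1 k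
      hB hcK hReg hk1 g3 g4 hEnv
    have q3 := hBG0 K hK0 (chargeLaw μ lam h) α σ d δ cK b (Lg α ^ 2) g0 (n0f α) n1 k
      hB hcK hReg hk1 g3 g4 hEnv
    have hcast : (((Mf α ^ Jf α * (n0f α * k) : ℕ) : ℝ)) =
        ((Mf α ^ Jf α * n0f α : ℕ) : ℝ) * k := by
      push_cast
      ring
    have hX : (((Mf α ^ Jf α * (n0f α * k) : ℕ) : ℝ) / k) ^ sg α σ ≤ Xf α σ := by
      rw [hcast, mul_div_assoc, div_self hkpos.ne', mul_one]
      exact le_refl _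
    have q4 := hscl K (chargeLaw μ lam h) α σ cK δ (hf α) (Lg α ^ 2) (α ^ (1 / 4 : ℝ))
      (Xf α σ) (Mf α) (Jf α) n1 k (n0f α * k) hP c1 c2 c3 hcK hReg hk1 hkB (g3.trans hkB) hX
      q1 q2 (by rw [sub_sub_cancel]; exact q3)
    have hMJ : 1 ≤ Mf α ^ Jf α := Nat.one_le_pow _ _ hP.M1
    have hkB' : k ≤ Mf α ^ Jf α * (n0f α * k) :=
      hkB.trans (Nat.le_mul_of_pos_left _ hMJ)
    have hratio : (k : ℝ) / ((Mf α ^ Jf α * (n0f α * k) : ℕ) : ℝ) =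
        1 / ((Mf α ^ Jf α * n0f α : ℕ) : ℝ) := by
      rw [hcast]
      have : (0 : ℝ) < ((Mf α ^ Jf α * n0f α : ℕ) : ℝ) := by
        have : 0 < Mf α ^ Jf α * n0f α := Nat.mul_pos hMJ hn0
        exact_mod_cast this
      field_simp
    have hCL : 0 ≤ C * Lg α ^ 2 := by positivity
    obtain ⟨C', hC', hbd⟩ := hFCR K hK0 (chargeLaw μ lam h) α σ cK δ (C * Lg α ^ 2) n1 k
      (Mf α ^ Jf α * (n0f α * k)) hα hσ0 c9 hcK hδ0 hReg hk1 hkB' (g3.trans hkB') hCL q4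
      (by rw [hratio]; exact c4) hEnv.mot
    have hth : 0 < th α σ := by
      unfold th
      positivity
    have := hNEG K μ hexp lam h (th α σ) C' hth hC' hbd f hfe
    linarith
  · positivity

end Pool.Agent.H85.CE
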